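import Pool.Agent.Work.MP_819de9_al.Final

namespace Pool.Agent.Results.MP_819de9_al.InfiniteAb

/-- Let `k` be any nonzero commutative ring and let `G` be a non-abelian torsion-free virtually
polycyclic group (written as: virtually solvable with all subgroups finitely generated) whose
abelianisation is infinite.  Then `kG` has a finitely generated projective module `M` with
`M ⊕ kG ≅ kG ⊕ kG` that is not free. -/
theorem result (k : Type) [CommRing k] [Nontrivial k] (G : Type) [Group G]
    (htf : ∀ g : G, g ≠ 1 → ¬ IsOfFinOrder g)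
    (hvs : ∃ H : Subgroup G, H.index ≠ 0 ∧ Group.IsSolvable H)
    (hfg : ∀ H : Subgroup G, H.FG)
    (hab : Infinite (Abelianization G))
    (hG : ∃ a b : G, a * b ≠ b * a) :
    ∃ (M : Type) (_ : AddCommGroup M) (_ : Module (MonoidAlgebra k G) M),
      Nonempty ((M × MonoidAlgebra k G) ≃ₗ[MonoidAlgebra k G]
        (MonoidAlgebra k G × MonoidAlgebra k G)) ∧
      Module.Finite (MonoidAlgebra k G) M ∧ Module.Projective (MonoidAlgebra k G) M ∧
      ¬ Module.Free (MonoidAlgebra k G) M := by
  obtain ⟨a, b, h⟩ := hG
  exact Pool.Agent.Work.MP_819de9_al.exists_of_not_sfc fun hs =>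
    h (Pool.Agent.Work.MP_819de9_al.comm_of_infinite htf hvs hfg hab hs a b)

end Pool.Agent.Results.MP_819de9_al.InfiniteAb
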